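import Mathlib.Topology.Sheaves.Presheaf
import Mathlib.Algebra.Order.Ring.Star
import Mathlib.Algebra.Order.Floor.Semifield
import Mathlib.Algebra.Order.Star.Real
import Mathlib.Topology.MetricSpace.HausdorffDimension
import Mathlib.Data.Nat.Nth
import Mathlib.Tactic.Algebra.Basic

-- ======== part 0: formerly Pool.Agent.MP_098a03_an.Sep
section MrgPart0

/-!
Separation of the mantissas of y^i / i! with respect to a ratio rho.
-/

namespace Pool.Agent.MP_098a03_an

open Real Nat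

lemma logfac_lower (i q : ℕ) :
    (q : ℝ) * Real.log (i + 1) ≤ Real.log ((i + q)! : ℝ) - Real.log (i ! : ℝ) := by
  induction q with
  | zero => simp
  | succ q ih =>
    have h1 : Real.log ((i + (q + 1))! : ℝ) = Real.log (i + q + 1 : ℝ) + Real.log ((i + q)! : ℝ) := by
      rw [← add_assoc, Nat.factorial_succ]
      push_cast
      rw [Real.log_mul (by positivity) (by positivity)]
    have h2 : Real.log (i + 1 : ℝ) ≤ Real.log (i + q + 1 : ℝ) := by
      apply Real.log_le_log (by positivity)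
      have : (0 : ℝ) ≤ q := by positivity
      linarith
    rw [h1]
    push_cast
    nlinarith

lemma logfac_upper (i q : ℕ) :
    Real.log ((i + q)! : ℝ) - Real.log (i ! : ℝ) ≤ (q : ℝ) * Real.log (i + q) := by
  induction q with
  | zero => simp
  | succ q ih =>
    have h1 : Real.log ((i + (q + 1))! : ℝ) = Real.log (i + q + 1 : ℝ) + Real.log ((i + q)! : ℝ) := by
      rw [← add_assoc, Nat.factorial_succ]
      push_cast
      rw [Real.log_mul (by positivity) (by positivity)]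
    have h2 : (q : ℝ) * Real.log (i + q : ℝ) ≤ q * Real.log (i + q + 1 : ℝ) := by
      rcases Nat.eq_zero_or_pos q with rfl | hq
      · simp
      · apply mul_le_mul_of_nonneg_left _ (by positivity)
        apply Real.log_le_log
        · have : (0 : ℝ) < q := by exact_mod_cast hq
          positivity
        · linarith
    rw [h1]
    push_cast
    have h3 : (i : ℝ) + (q + 1) = i + q + 1 := by ring
    rw [h3]
    nlinarith

/-- Three indices in a short window cannot have almost the same fractional part. -/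
lemma three_point (lam a : ℝ) (hlam : 0 < lam) (n W : ℕ) (hn : 0 < n) (hW : W ≤ n)
    (ε : ℝ) (hε0 : 0 ≤ ε) (hε : 4 * n * lam * ε < 1) (hW3 : (W : ℝ) ^ 3 / (n * lam) + W * ε < 1)
    (i p q : ℕ) (hp : 0 < p) (hq : 0 < q) (hi : n ≤ i) (hiW : i + p + q < n + W)
    (A B : ℤ)
    (h1 : |(Real.log ((i + p)! : ℝ) - Real.log (i ! : ℝ) + a * p) / lam - A| ≤ ε)
    (h2 : |(Real.log ((i + p + q)! : ℝ) - Real.log ((i + p)! : ℝ) + a * q) / lam - B| ≤ ε) :
    False := by
  set X := Real.log ((i + p)! : ℝ) - Real.log (i ! : ℝ) with hX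
  set Y := Real.log ((i + p + q)! : ℝ) - Real.log ((i + p)! : ℝ) with hY
  have hXl : (p : ℝ) * Real.log (i + 1) ≤ X := logfac_lower i p
  have hXu : X ≤ (p : ℝ) * Real.log (i + p) := logfac_upper i p
  have hYl : (q : ℝ) * Real.log ((i + p : ℕ) + 1) ≤ Y := logfac_lower (i + p) q
  have hYu : Y ≤ (q : ℝ) * Real.log ((i + p : ℕ) + q) := logfac_upper (i + p) q
  push_cast at hYl hYu
  have hp1 : (1 : ℝ) ≤ p := by exact_mod_cast hp
  have hq1 : (1 : ℝ) ≤ q := by exact_mod_cast hq
  have hn1 : (1 : ℝ) ≤ n := by exact_mod_cast hn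
  have hin : (n : ℝ) ≤ i := by exact_mod_cast hi
  have hWn : (W : ℝ) ≤ n := by exact_mod_cast hW
  have hiW' : (i : ℝ) + p + q + 1 ≤ n + W := by exact_mod_cast hiW
  -- lower bound on the log ratio
  have hl : 1 / (2 * (n : ℝ)) ≤ Real.log (i + p + 1) - Real.log (i + p) := by
    have hpos : (0 : ℝ) < i + p := by linarith
    have := Real.one_sub_inv_le_log_of_pos (x := ((i : ℝ) + p + 1) / (i + p)) (by positivity)
    rw [Real.log_div (by positivity) (by positivity)] at this
    have e1 : 1 - (((i : ℝ) + p + 1) / (i + p))⁻¹ = 1 / (i + p + 1) := by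
      field_simp; ring
    rw [e1] at this
    refine le_trans ?_ this
    apply one_div_le_one_div_of_le (by positivity)
    linarith
  have hu : Real.log (i + p + q) - Real.log (i + 1) ≤ W / n := by
    have hpos : (0 : ℝ) < i + 1 := by linarith
    have := Real.log_le_sub_one_of_pos (x := ((i : ℝ) + p + q) / (i + 1)) (by positivity)
    rw [Real.log_div (by positivity) (by positivity)] at this
    refine le_trans this ?_
    have e1 : ((i : ℝ) + p + q) / (i + 1) - 1 = (p + q - 1) / (i + 1) := by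
      field_simp; ring
    rw [e1]
    apply div_le_div₀ (by positivity) (by linarith) (by positivity) (by linarith)
  set D := p * Y - q * X with hD
  have hDl : p * q / (2 * (n : ℝ)) ≤ D := by
    have e : (p : ℝ) * q / (2 * n) = p * q * (1 / (2 * n)) := by ring
    have h3 : (p : ℝ) * q * (1 / (2 * n)) ≤ p * q * (Real.log (i + p + 1) - Real.log (i + p)) :=
      mul_le_mul_of_nonneg_left hl (by positivity)
    have h4 : (p : ℝ) * (q * Real.log (i + p + 1)) ≤ p * Y :=
      mul_le_mul_of_nonneg_left hYl (by positivity)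
    have h5 : (q : ℝ) * X ≤ q * (p * Real.log (i + p)) :=
      mul_le_mul_of_nonneg_left hXu (by positivity)
    rw [e]; nlinarith
  have hDu : D ≤ (W : ℝ) ^ 3 / n := by
    have h3 : (p : ℝ) * q * (Real.log (i + p + q) - Real.log (i + 1)) ≤ p * q * (W / n) :=
      mul_le_mul_of_nonneg_left hu (by positivity)
    have h4 : (p : ℝ) * Y ≤ p * (q * Real.log (i + p + q)) :=
      mul_le_mul_of_nonneg_left hYu (by positivity)
    have h5 : (q : ℝ) * (p * Real.log (i + 1)) ≤ q * X :=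
      mul_le_mul_of_nonneg_left hXl (by positivity)
    have h6 : (p : ℝ) * q ≤ W ^ 2 := by
      have : (p : ℝ) ≤ W := by linarith
      have : (q : ℝ) ≤ W := by linarith
      nlinarith
    have h7 : (p : ℝ) * q * (W / n) ≤ W ^ 2 * (W / n) :=
      mul_le_mul_of_nonneg_right h6 (by positivity)
    have e : (W : ℝ) ^ 3 / n = W ^ 2 * (W / n) := by ring
    rw [e]; nlinarith
  set d1 := (X + a * p) / lam - A with hd1
  set d2 := (Y + a * q) / lam - B with hd2
  have hZ : ((p * B - q * A : ℤ) : ℝ) = D / lam - (p * d2 - q * d1) := by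
    push_cast
    rw [hd1, hd2, hD]
    field_simp
    ring
  have hd1' := abs_le.1 h1
  have hd2' := abs_le.1 h2
  have herr1 : p * d2 - q * d1 ≤ (p + q) * ε := by nlinarith [hd1'.1, hd2'.2]
  have herr2 : -((p + q) * ε) ≤ p * d2 - q * d1 := by nlinarith [hd1'.2, hd2'.1]
  have hpos : (0 : ℝ) < ((p * B - q * A : ℤ) : ℝ) := by
    rw [hZ]
    have h8 : p * q / (2 * (n : ℝ)) / lam ≤ D / lam := div_le_div_of_nonneg_right hDl hlam.le
    have h9 : (p + q : ℝ) * ε ≤ 2 * (p * q) * ε := by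
      apply mul_le_mul_of_nonneg_right _ hε0
      nlinarith
    have h10 : 2 * ((p : ℝ) * q) * ε < p * q / (2 * (n : ℝ)) / lam := by
      rw [div_div, lt_div_iff₀ (by positivity)]
      have : (0 : ℝ) < p * q := by positivity
      nlinarith
    linarith
  have hlt : ((p * B - q * A : ℤ) : ℝ) < 1 := by
    rw [hZ]
    have h8 : D / lam ≤ (W : ℝ) ^ 3 / n / lam := div_le_div_of_nonneg_right hDu hlam.le
    rw [div_div] at h8
    have h9 : (p + q : ℝ) * ε ≤ W * ε := by
      apply mul_le_mul_of_nonneg_right _ hε0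
      linarith
    linarith
  have h0 : (0 : ℤ) < p * B - q * A := by exact_mod_cast hpos
  have h1' : p * B - q * A < (1 : ℤ) := by exact_mod_cast hlt
  omega

/-- If no three points of `S` are close, at least half of `S` is separated. -/
lemma exists_separated (S : Finset ℕ) (μ : ℕ → ℝ) (η : ℝ)
    (h3 : ∀ a ∈ S, ∀ b ∈ S, ∀ c ∈ S, a < b → b < c → |μ a - μ b| ≤ 2 * η →
      |μ b - μ c| ≤ 2 * η → False) :
    ∃ I ⊆ S, S.card ≤ 2 * I.card ∧ ∀ a ∈ I, ∀ b ∈ I, a ≠ b → η ≤ |μ a - μ b| := by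
  classical
  let I := S.filter (fun t => ∀ s ∈ S, s < t → η ≤ |μ s - μ t|)
  have hex : ∀ t ∈ S \ I, ∃ s ∈ S, s < t ∧ |μ s - μ t| < η := by
    intro t ht
    rw [Finset.mem_sdiff] at ht
    by_contra hcon
    push Not at hcon
    exact ht.2 (Finset.mem_filter.2 ⟨ht.1, hcon⟩)
  choose! f hfS hflt hfμ using hex
  refine ⟨I, Finset.filter_subset _ _, ?_, ?_⟩
  · have hcard : (S \ I).card ≤ I.card := by
      apply Finset.card_le_card_of_injOn f
      · intro t ht
        have ht' : t ∈ S \ I := by simpa using ht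
        by_contra hcon
        have hmem : f t ∈ S \ I := Finset.mem_sdiff.2 ⟨hfS t ht', by simpa using hcon⟩
        have e1 := hfμ t ht'
        have e2 := hfμ _ hmem
        have e0 : 0 ≤ |μ (f t) - μ t| := abs_nonneg _
        exact h3 _ (hfS _ hmem) _ (hfS t ht') t (Finset.mem_sdiff.1 ht').1 (hflt _ hmem)
          (hflt t ht') (by linarith) (by linarith)
      · have key : ∀ t ∈ S \ I, ∀ t' ∈ S \ I, f t = f t' → t < t' → False := by
          intro t ht t' ht' he hlt
          have e1 := hfμ t ht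
          have e2 := hfμ t' ht'
          have e0 : 0 ≤ |μ (f t) - μ t| := abs_nonneg _
          rw [← he] at e2
          have e3 : |μ t - μ t'| ≤ 2 * η := by
            have := abs_sub_le (μ t) (μ (f t)) (μ t')
            rw [abs_sub_comm (μ t) (μ (f t))] at this
            linarith
          exact h3 _ (hfS t ht) t (Finset.mem_sdiff.1 ht).1 t' (Finset.mem_sdiff.1 ht').1
            (hflt t ht) hlt (by linarith) e3
        intro t ht t' ht' he
        have ht1 : t ∈ S \ I := by simpa using ht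
        have ht2 : t' ∈ S \ I := by simpa using ht'
        rcases lt_trichotomy t t' with h | h | h
        · exact (key t ht1 t' ht2 he h).elim
        · exact h
        · exact (key t' ht2 t ht1 he.symm h).elim
    have := Finset.card_sdiff_add_card_eq_card (Finset.filter_subset
      (fun t => ∀ s ∈ S, s < t → η ≤ |μ s - μ t|) S)
    change (S \ I).card + I.card = S.card at this
    omega
  · intro a ha b hb hab
    rcases lt_or_gt_of_ne hab with h | h
    · exact (Finset.mem_filter.1 hb).2 a (Finset.mem_filter.1 ha).1 h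
    · rw [abs_sub_comm]
      exact (Finset.mem_filter.1 ha).2 b (Finset.mem_filter.1 hb).1 h

end Pool.Agent.MP_098a03_an

end MrgPart0

-- ======== part 1: formerly Pool.Agent.MP_098a03_an.Cantor
section MrgPart1

/-!
An abstract Cantor-type construction giving a lower bound for a Hausdorff dimension.
-/

namespace Pool.Agent.MP_098a03_an

open scoped NNReal ENNReal

/-- An anti-Hoelder map from the unit interval gives a dimension bound. -/
lemma le_dimH_of_antiHolder (G : ℝ → ℝ) (r C : ℝ≥0) (hr : 0 < r)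
    (h : ∀ x ∈ Set.Ico (0 : ℝ) 1, ∀ x' ∈ Set.Ico (0 : ℝ) 1,
      |x - x'| ≤ C * |G x - G x'| ^ (r : ℝ)) :
    (r : ℝ≥0∞) ≤ dimH (G '' Set.Ico (0 : ℝ) 1) := by
  have hr' : (0 : ℝ) < r := by exact_mod_cast hr
  have hinj : Set.InjOn G (Set.Ico (0 : ℝ) 1) := by
    intro x hx x' hx' he
    have := h x hx x' hx'
    rw [he, sub_self, abs_zero, Real.zero_rpow hr'.ne', mul_zero] at this
    have h0 := abs_nonneg (x - x')
    have : |x - x'| = 0 := le_antisymm this h0
    rw [abs_eq_zero] at this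
    linarith
  let f := Function.invFunOn G (Set.Ico (0 : ℝ) 1)
  have hf : ∀ x ∈ Set.Ico (0 : ℝ) 1, f (G x) = x := fun x hx => hinj.leftInvOn_invFunOn hx
  have hH : HolderOnWith C r f (G '' Set.Ico (0 : ℝ) 1) := by
    rintro _ ⟨x, hx, rfl⟩ _ ⟨x', hx', rfl⟩
    rw [hf x hx, hf x' hx', edist_dist, edist_dist, Real.dist_eq, Real.dist_eq,
      ENNReal.ofReal_rpow_of_nonneg (abs_nonneg _) hr'.le, ← ENNReal.ofReal_coe_nnreal,
      ← ENNReal.ofReal_mul C.coe_nonneg]
    exact ENNReal.ofReal_le_ofReal (h x hx x' hx')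
  have h1 := hH.dimH_image_le hr
  have h2 : f '' (G '' Set.Ico (0 : ℝ) 1) = Set.Ico (0 : ℝ) 1 := by
    rw [Set.image_image]
    ext z
    constructor
    · rintro ⟨x, hx, rfl⟩
      simpa [hf x hx] using hx
    · intro hz
      exact ⟨z, hz, hf z hz⟩
  have h3 : dimH (Set.Ico (0 : ℝ) 1) = 1 := by
    rw [Real.dimH_of_nonempty_interior]
    · simp
    · rw [interior_Ico]; exact ⟨1 / 2, by norm_num, by norm_num⟩
  rw [h2, h3, ENNReal.le_div_iff_mul_le (Or.inl (by exact_mod_cast hr.ne'))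
    (Or.inl ENNReal.coe_ne_top), one_mul] at h1
  exact h1

/-- The set of indices used by the first `k` slots. -/
noncomputable def used (I : ℕ → Finset ℕ) (d : ℕ → ℕ) : ℕ → Finset ℕ
  | 0 => ∅
  | k + 1 => insert (Nat.nth (fun i => i ∈ I k \ used I d k) (d k)) (used I d k)

/-- The index selected at slot `k`. -/
noncomputable def sel (I : ℕ → Finset ℕ) (d : ℕ → ℕ) (k : ℕ) : ℕ :=
  Nat.nth (fun i => i ∈ I k \ used I d k) (d k)

lemma used_eq (I : ℕ → Finset ℕ) (d : ℕ → ℕ) (k : ℕ) :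
    used I d k = (Finset.range k).image (sel I d) := by
  induction k with
  | zero => simp [used]
  | succ k ih =>
    rw [Finset.range_add_one, Finset.image_insert, ← ih]
    rfl

lemma used_congr (I : ℕ → Finset ℕ) (d d' : ℕ → ℕ) (k : ℕ) (h : ∀ l < k, d l = d' l) :
    used I d k = used I d' k := by
  induction k with
  | zero => simp [used]
  | succ k ih =>
    have := ih (fun l hl => h l (by omega))
    simp only [used, this, h k (by omega)]

lemma finite_mem (T : Finset ℕ) : (Set.ofPred (fun i => i ∈ T)).Finite := T.finite_toSet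

lemma card_finite_mem (T : Finset ℕ) : (finite_mem T).toFinset.card = T.card := by
  congr 1
  ext i
  simp

section
variable {b : ℕ → ℕ} {I : ℕ → Finset ℕ}
  (h3 : ∀ k, ∀ s : ℕ → ℕ, (∀ l < k, s l ∈ I l) → b k ≤ (I k \ (Finset.range k).image s).card)
include h3

lemma sel_mem (d : ℕ → ℕ) (hd : ∀ k, d k < b k) (k : ℕ) :
    sel I d k ∈ I k \ used I d k ∧ b k ≤ (I k \ used I d k).card := by
  induction k using Nat.strong_induction_on with
  | _ k ih =>
    have hc : b k ≤ (I k \ used I d k).card := by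
      rw [used_eq]
      exact h3 k _ (fun l hl => (Finset.mem_sdiff.1 (ih l hl).1).1)
    refine ⟨?_, hc⟩
    apply Nat.nth_mem_of_lt_card (finite_mem _)
    rw [card_finite_mem]
    exact lt_of_lt_of_le (hd k) hc

lemma sel_injective (d : ℕ → ℕ) (hd : ∀ k, d k < b k) : Function.Injective (sel I d) := by
  have key : ∀ k l, l < k → sel I d k ≠ sel I d l := by
    intro k l hl he
    have := (Finset.mem_sdiff.1 (sel_mem h3 d hd k).1).2
    apply this
    rw [used_eq, he]
    exact Finset.mem_image_of_mem _ (Finset.mem_range.2 hl)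
  intro k l he
  rcases lt_trichotomy k l with h | h | h
  · exact (key l k h he.symm).elim
  · exact h
  · exact (key k l h he).elim

lemma sel_ne (d d' : ℕ → ℕ) (hd : ∀ k, d k < b k) (hd' : ∀ k, d' k < b k) (k : ℕ)
    (h : ∀ l < k, d l = d' l) (hk : d k ≠ d' k) : sel I d k ≠ sel I d' k := by
  have hc := (sel_mem h3 d hd k).2
  unfold sel
  rw [← used_congr I d d' k h]
  intro he
  apply hk
  apply Nat.nth_injOn (finite_mem (I k \ used I d k)) _ _ he
  · rw [Set.mem_Iio, card_finite_mem]; exact lt_of_lt_of_le (hd k) hc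
  · rw [Set.mem_Iio, card_finite_mem]; exact lt_of_lt_of_le (hd' k) hc

end

lemma sel_congr (I : ℕ → Finset ℕ) (d d' : ℕ → ℕ) (k : ℕ) (h : ∀ l ≤ k, d l = d' l) :
    sel I d k = sel I d' k := by
  unfold sel
  rw [used_congr I d d' k (fun l hl => h l hl.le), h k le_rfl]

/-- Mixed radix digits of a real number. -/
noncomputable def digit (b : ℕ → ℕ) (x : ℝ) (k : ℕ) : ℕ :=
  ⌊x * (∏ l ∈ Finset.range (k + 1), b l : ℕ)⌋₊ % b k

lemma floor_eq_of_digit (b : ℕ → ℕ) (hb : ∀ k, 0 < b k) (x x' : ℝ) (hx : x ∈ Set.Ico (0 : ℝ) 1)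
    (hx' : x' ∈ Set.Ico (0 : ℝ) 1) (k : ℕ) (h : ∀ l < k, digit b x l = digit b x' l) :
    ⌊x * (∏ l ∈ Finset.range k, b l : ℕ)⌋₊ = ⌊x' * (∏ l ∈ Finset.range k, b l : ℕ)⌋₊ := by
  induction k with
  | zero =>
    simp only [Finset.range_zero, Finset.prod_empty, Nat.cast_one, mul_one]
    rw [Nat.floor_eq_zero.2 hx.2, Nat.floor_eq_zero.2 hx'.2]
  | succ k ih =>
    have h1 := ih (fun l hl => h l (by omega))
    have h2 := h k (by omega)
    unfold digit at h2
    have key : ∀ z : ℝ, ⌊z * (∏ l ∈ Finset.range (k + 1), b l : ℕ)⌋₊ / b k =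
        ⌊z * (∏ l ∈ Finset.range k, b l : ℕ)⌋₊ := by
      intro z
      rw [← Nat.floor_div_natCast, Finset.prod_range_succ]
      congr 1
      have : (b k : ℝ) ≠ 0 := by exact_mod_cast (hb k).ne'
      push_cast
      field_simp
    rw [← Nat.div_add_mod ⌊x * (∏ l ∈ Finset.range (k + 1), b l : ℕ)⌋₊ (b k),
      ← Nat.div_add_mod ⌊x' * (∏ l ∈ Finset.range (k + 1), b l : ℕ)⌋₊ (b k), key, key, h1, h2]

lemma close_of_digit (b : ℕ → ℕ) (hb : ∀ k, 0 < b k) (x x' : ℝ) (hx : x ∈ Set.Ico (0 : ℝ) 1)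
    (hx' : x' ∈ Set.Ico (0 : ℝ) 1) (k : ℕ) (h : ∀ l < k, digit b x l = digit b x' l) :
    |x - x'| ≤ 1 / (∏ l ∈ Finset.range k, b l : ℕ) := by
  have h1 := floor_eq_of_digit b hb x x' hx hx' k h
  set P : ℕ := ∏ l ∈ Finset.range k, b l with hP
  have hPpos : (0 : ℝ) < P := by
    have : 0 < P := Finset.prod_pos (fun l _ => hb l)
    exact_mod_cast this
  have a1 := Nat.floor_le (a := x * P) (mul_nonneg hx.1 hPpos.le)
  have a2 := Nat.lt_floor_add_one (x * P)
  have a3 := Nat.floor_le (a := x' * P) (mul_nonneg hx'.1 hPpos.le)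
  have a4 := Nat.lt_floor_add_one (x' * P)
  rw [h1] at a1 a2
  rw [le_div_iff₀ hPpos, ← abs_of_pos hPpos, ← abs_mul, abs_le]
  constructor <;> nlinarith

theorem cantor_dim (ρ : ℝ) (hρ0 : 0 < ρ) (hρ1 : ρ < 1) (μ : ℕ → ℝ) (hμ0 : ∀ i, 0 ≤ μ i)
    (hμ1 : ∀ i, μ i ≤ 1) (e : ℕ → ℕ) (hsum : Summable fun i => μ i * ρ ^ (e i + i))
    (b m : ℕ → ℕ) (I : ℕ → Finset ℕ) (hb : ∀ k, 2 ≤ b k) (hm : StrictMono m)
    (h1 : ∀ k, ∀ i ∈ I k, e i ≤ m k ∧ m (k + 1) ≤ e i + i)
    (h2 : ∀ k, ∀ a ∈ I k, ∀ c ∈ I k, a ≠ c →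
      (2 + 1 / (1 - ρ)) * ρ ^ (m (k + 1)) ≤ ρ ^ (m k) * |μ a - μ c|)
    (h3 : ∀ k, ∀ s : ℕ → ℕ, (∀ l < k, s l ∈ I l) →
      b k ≤ (I k \ (Finset.range k).image s).card)
    (r C : ℝ≥0) (hr : 0 < r)
    (h4 : ∀ k, 1 / ((∏ l ∈ Finset.range k, b l : ℕ) : ℝ) ≤ C * (ρ ^ (m (k + 1))) ^ (r : ℝ)) :
    (r : ℝ≥0∞) ≤ dimH {s | ∃ j : ℕ → ℕ, (∀ i, j i ≤ i) ∧
      HasSum (fun i => μ i * ρ ^ (e i + j i)) s} := by
  classical
  have hb0 : ∀ k, 0 < b k := fun k => lt_of_lt_of_le (by norm_num) (hb k)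
  let a : (ℕ → ℕ) → ℕ → ℝ := fun d k =>
    μ (sel I d k) * ρ ^ (m k) - μ (sel I d k) * ρ ^ (e (sel I d k) + sel I d k)
  have hselI : ∀ d : ℕ → ℕ, (∀ k, d k < b k) → ∀ k, sel I d k ∈ I k := fun d hd k =>
    (Finset.mem_sdiff.1 (sel_mem h3 d hd k).1).1
  have hδ : ∀ d : ℕ → ℕ, (∀ k, d k < b k) → ∀ k,
      0 ≤ μ (sel I d k) * ρ ^ (e (sel I d k) + sel I d k) ∧
      μ (sel I d k) * ρ ^ (e (sel I d k) + sel I d k) ≤ ρ ^ (m (k + 1)) := by
    intro d hd k
    refine ⟨mul_nonneg (hμ0 _) (by positivity), ?_⟩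
    have := pow_le_pow_of_le_one hρ0.le hρ1.le (h1 k _ (hselI d hd k)).2
    have h5 := hμ1 (sel I d k)
    have h6 : 0 < ρ ^ (e (sel I d k) + sel I d k) := by positivity
    nlinarith
  have ha : ∀ d : ℕ → ℕ, (∀ k, d k < b k) → ∀ k, 0 ≤ a d k ∧ a d k ≤ ρ ^ (m k) := by
    intro d hd k
    have h5 := hμ1 (sel I d k)
    have h5' := hμ0 (sel I d k)
    have h6 : 0 < ρ ^ (m k) := by positivity
    have h7 : ρ ^ (e (sel I d k) + sel I d k) ≤ ρ ^ (m k) :=
      pow_le_pow_of_le_one hρ0.le hρ1.le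
        (le_trans (hm (Nat.lt_succ_self k)).le (h1 k _ (hselI d hd k)).2)
    have h8 := (hδ d hd k).1
    constructor
    · simp only [a]; nlinarith
    · simp only [a]; nlinarith
  have hasum : ∀ d : ℕ → ℕ, (∀ k, d k < b k) → Summable (a d) := by
    intro d hd
    refine Summable.of_nonneg_of_le (fun k => (ha d hd k).1) (fun k => ?_)
      (summable_geometric_of_lt_one hρ0.le hρ1)
    exact le_trans (ha d hd k).2 (pow_le_pow_of_le_one hρ0.le hρ1.le (hm.id_le k))
  let G0 : (ℕ → ℕ) → ℝ := fun d => (∑' i, μ i * ρ ^ (e i + i)) + ∑' k, a d k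
  have hG0mem : ∀ d : ℕ → ℕ, (∀ k, d k < b k) → ∃ j : ℕ → ℕ, (∀ i, j i ≤ i) ∧
      HasSum (fun i => μ i * ρ ^ (e i + j i)) (G0 d) := by
    intro d hd
    have hinj := sel_injective h3 d hd
    let j : ℕ → ℕ := fun i => if h : ∃ k, sel I d k = i then m h.choose - e i else i
    have hj : ∀ k, e (sel I d k) + j (sel I d k) = m k := by
      intro k
      have h : ∃ l, sel I d l = sel I d k := ⟨k, rfl⟩
      have hc : h.choose = k := hinj h.choose_spec
      simp only [j, dif_pos h, hc]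
      have := (h1 k _ (hselI d hd k)).1
      omega
    refine ⟨j, ?_, ?_⟩
    · intro i
      by_cases h : ∃ k, sel I d k = i
      · obtain ⟨k, rfl⟩ := h
        have e1 := hj k
        have e2 := (h1 k _ (hselI d hd k)).2
        have e3 := hm (Nat.lt_succ_self k)
        simp only [Nat.succ_eq_add_one] at e3
        omega
      · simp only [j, dif_neg h, le_refl]
    · have hc : HasSum (fun i => μ i * ρ ^ (e i + j i) - μ i * ρ ^ (e i + i)) (∑' k, a d k) := by
        rw [← hinj.hasSum_iff]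
        · convert (hasum d hd).hasSum using 1
          ext k
          simp only [Function.comp, a, hj k]
        · intro i hi
          have h : ¬ ∃ k, sel I d k = i := hi
          simp only [j, dif_neg h, sub_self]
      have := hsum.hasSum.add hc
      convert this using 1
      ext i
      ring
  have hsep : ∀ d d' : ℕ → ℕ, (∀ k, d k < b k) → (∀ k, d' k < b k) → ∀ k,
      (∀ l < k, d l = d' l) → d k ≠ d' k → ρ ^ (m (k + 1)) ≤ |G0 d - G0 d'| := by
    intro d d' hd hd' k hl hk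
    have hs := (hasum d hd).sub (hasum d' hd')
    have e1 : G0 d - G0 d' = ∑' l, (a d l - a d' l) := by
      rw [(hasum d hd).tsum_sub (hasum d' hd')]
      simp only [G0]; ring
    have e2 := hs.sum_add_tsum_nat_add (k + 1)
    have e3 : ∑ l ∈ Finset.range (k + 1), (a d l - a d' l) = a d k - a d' k := by
      rw [Finset.sum_range_succ, Finset.sum_eq_zero, zero_add]
      intro l hl'
      have := sel_congr I d d' l (fun t ht => hl t (lt_of_le_of_lt ht (Finset.mem_range.1 hl')))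
      simp only [a, this, sub_self]
    have e4 : ‖∑' l, (a d (l + (k + 1)) - a d' (l + (k + 1)))‖ ≤ ρ ^ (m (k + 1)) * (1 - ρ)⁻¹ := by
      apply tsum_of_norm_bounded ((hasSum_geometric_of_lt_one hρ0.le hρ1).mul_left _)
      intro l
      have t1 := ha d hd (l + (k + 1))
      have t2 := ha d' hd' (l + (k + 1))
      have t3 : ρ ^ (m (l + (k + 1))) ≤ ρ ^ (m (k + 1)) * ρ ^ l := by
        rw [← pow_add]
        apply pow_le_pow_of_le_one hρ0.le hρ1.le
        have := hm.add_le_nat l (k + 1)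
        omega
      rw [Real.norm_eq_abs, abs_le]
      constructor <;> linarith [t1.1, t1.2, t2.1, t2.2]
    rw [Real.norm_eq_abs] at e4
    have e5 := h2 k _ (hselI d hd k) _ (hselI d' hd' k) (sel_ne h3 d d' hd hd' k hl hk)
    have e6 : ρ ^ (m k) * |μ (sel I d k) - μ (sel I d' k)| - ρ ^ (m (k + 1)) ≤
        |a d k - a d' k| := by
      have t1 := hδ d hd k
      have t2 := hδ d' hd' k
      have t3 : 0 < ρ ^ (m k) := by positivity
      rw [← abs_of_pos t3, ← abs_mul]
      simp only [a]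
      rw [sub_le_iff_le_add, abs_le]
      have t4 := le_abs_self (μ (sel I d k) * ρ ^ m k -
        μ (sel I d k) * ρ ^ (e (sel I d k) + sel I d k) -
        (μ (sel I d' k) * ρ ^ m k - μ (sel I d' k) * ρ ^ (e (sel I d' k) + sel I d' k)))
      have t5 := neg_abs_le (μ (sel I d k) * ρ ^ m k -
        μ (sel I d k) * ρ ^ (e (sel I d k) + sel I d k) -
        (μ (sel I d' k) * ρ ^ m k - μ (sel I d' k) * ρ ^ (e (sel I d' k) + sel I d' k)))
      constructor <;> linarith [t1.1, t1.2, t2.1, t2.2]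
    rw [e1, ← e2, e3]
    have e7 := abs_add_le (a d k - a d' k + ∑' l, (a d (l + (k + 1)) - a d' (l + (k + 1))))
      (-(∑' l, (a d (l + (k + 1)) - a d' (l + (k + 1)))))
    rw [abs_neg, add_neg_cancel_right] at e7
    have e8 : (2 + 1 / (1 - ρ)) * ρ ^ (m (k + 1)) =
        2 * ρ ^ (m (k + 1)) + ρ ^ (m (k + 1)) * (1 - ρ)⁻¹ := by ring
    linarith
  have hdig : ∀ x : ℝ, ∀ k, digit b x k < b k := fun x k => Nat.mod_lt _ (hb0 k)
  refine le_trans (le_dimH_of_antiHolder (fun x => G0 (digit b x)) r C hr ?_) (dimH_mono ?_)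
  · intro x hx x' hx'
    by_cases hex : ∃ k, digit b x k ≠ digit b x' k
    · have hk := Nat.find_spec hex
      have hl : ∀ l < Nat.find hex, digit b x l = digit b x' l := by
        intro l hl
        have := Nat.find_min hex hl
        simpa using this
      refine le_trans (close_of_digit b hb0 x x' hx hx' _ hl) (le_trans (h4 _) ?_)
      apply mul_le_mul_of_nonneg_left _ C.coe_nonneg
      exact Real.rpow_le_rpow (by positivity) (hsep _ _ (hdig x) (hdig x') _ hl hk) r.coe_nonneg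
    · push Not at hex
      have hle : ∀ k : ℕ, |x - x'| ≤ (1 / 2 : ℝ) ^ k := by
        intro k
        refine le_trans (close_of_digit b hb0 x x' hx hx' k (fun l _ => hex l)) ?_
        rw [one_div_pow]
        apply one_div_le_one_div_of_le (by positivity)
        have : 2 ^ k ≤ ∏ l ∈ Finset.range k, b l := by
          have := Finset.pow_card_le_prod (Finset.range k) b 2 (fun l _ => hb l)
          simpa using this
        exact_mod_cast this
      have h0 : |x - x'| ≤ 0 :=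
        ge_of_tendsto' (tendsto_pow_atTop_nhds_zero_of_lt_one (r := (1 / 2 : ℝ))
          (by norm_num) (by norm_num)) hle
      exact le_trans h0 (by positivity)
  · rintro _ ⟨x, _, rfl⟩
    exact hG0mem _ (hdig x)

end Pool.Agent.MP_098a03_an

end MrgPart1

-- ======== part 2: formerly Pool.Agent.MP_098a03_an.TwoPoint
section MrgPart2

/-!
The exponential series of a two-point set has positive Hausdorff dimension.
-/

namespace Pool.Agent.MP_098a03_an

open scoped NNReal ENNReal Nat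

/-- Fourth root, rounded down. -/
def wd (κ : ℕ) : ℕ := Nat.sqrt (Nat.sqrt κ)

lemma wd_pow_le (κ : ℕ) : wd κ ^ 4 ≤ κ := by
  have h1 : Nat.sqrt κ ^ 2 ≤ κ := Nat.sqrt_le' κ
  have h2 : wd κ ^ 2 ≤ Nat.sqrt κ := Nat.sqrt_le' _
  calc wd κ ^ 4 = (wd κ ^ 2) ^ 2 := by ring
    _ ≤ Nat.sqrt κ ^ 2 := Nat.pow_le_pow_left h2 2
    _ ≤ κ := h1

lemma lt_wd_succ_pow (κ : ℕ) : κ < (wd κ + 1) ^ 4 := by
  have h1 : κ < (Nat.sqrt κ + 1) ^ 2 := Nat.lt_succ_sqrt' κ
  have h2 : Nat.sqrt κ < (wd κ + 1) ^ 2 := Nat.lt_succ_sqrt' _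
  calc κ < (Nat.sqrt κ + 1) ^ 2 := h1
    _ ≤ ((wd κ + 1) ^ 2) ^ 2 := Nat.pow_le_pow_left h2 2
    _ = (wd κ + 1) ^ 4 := by ring

lemma wd_mono : Monotone wd := fun _ _ h => Nat.sqrt_le_sqrt (Nat.sqrt_le_sqrt h)

lemma wd_succ_le (κ : ℕ) : wd (κ + 1) ≤ wd κ + 1 :=
  le_trans (Nat.sqrt_le_sqrt (Nat.sqrt_succ_le_succ_sqrt κ)) (Nat.sqrt_succ_le_succ_sqrt _)

lemma le_wd (w κ : ℕ) (h : w ^ 4 ≤ κ) : w ≤ wd κ := by
  have := lt_of_le_of_lt h (lt_wd_succ_pow κ)
  have := lt_of_pow_lt_pow_left₀ 4 (Nat.zero_le _) this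
  omega

lemma wd_le (κ : ℕ) : wd κ ≤ κ := le_trans (Nat.le_self_pow (by norm_num) _) (wd_pow_le κ)

lemma exp_gap (lam s t : ℝ) (hs : s ≤ lam) (ht : t ≤ lam) :
    Real.exp (-lam) * |s - t| ≤ |Real.exp (-s) - Real.exp (-t)| := by
  wlog h : s ≤ t generalizing s t
  · rw [abs_sub_comm s t, abs_sub_comm (Real.exp (-s))]
    exact this t s ht hs (by linarith)
  have h1 : Real.exp (-s) = Real.exp (-t) * Real.exp (t - s) := by
    rw [← Real.exp_add]; congr 1; ring
  have h2 := Real.add_one_le_exp (t - s)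
  have h3 : Real.exp (-lam) ≤ Real.exp (-t) := Real.exp_le_exp.2 (by linarith)
  have h4 := Real.exp_pos (-t)
  have h5 : Real.exp (-t) * (t - s) ≤ Real.exp (-s) - Real.exp (-t) := by
    rw [h1]; nlinarith
  rw [abs_of_nonpos (by linarith : s - t ≤ 0)]
  refine le_trans ?_ (le_abs_self _)
  have h6 : Real.exp (-lam) * (t - s) ≤ Real.exp (-t) * (t - s) :=
    mul_le_mul_of_nonneg_right h3 (by linarith)
  linarith

lemma u_upper (y : ℝ) (hy0 : 0 < y) (hy1 : y ≤ 1) (N t : ℕ) (ht : 2 ≤ t) :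
    y ^ (N + t) / ((N + t)! : ℝ) ≤ y ^ N / (N ! : ℝ) / ((N : ℝ) + 1) ^ 2 := by
  rw [div_div]
  apply div_le_div₀ (by positivity) (pow_le_pow_of_le_one hy0.le hy1 (by omega)) (by positivity)
  have h1 : N ! * (N + 1) ^ t ≤ (N + t)! := Nat.factorial_mul_pow_le_factorial
  have h2 : N ! * (N + 1) ^ 2 ≤ N ! * (N + 1) ^ t :=
    Nat.mul_le_mul_left _ (Nat.pow_le_pow_right (by omega) ht)
  exact_mod_cast le_trans h2 h1

lemma u_lower (y : ℝ) (hy0 : 0 < y) (N t : ℕ) (M : ℝ) (hM : (N : ℝ) + t ≤ M) :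
    y ^ N / (N ! : ℝ) * (y / M) ^ t ≤ y ^ (N + t) / ((N + t)! : ℝ) := by
  induction t with
  | zero => simp
  | succ t ih =>
    have h1 := ih (by push_cast at hM; linarith)
    have hM0 : (0 : ℝ) < N + t + 1 := by positivity
    have hM1 : (N : ℝ) + t + 1 ≤ M := by push_cast at hM; linarith
    have h2 : y / M ≤ y / (N + t + 1) := div_le_div_of_nonneg_left hy0.le hM0 hM1
    have h3 : y ^ (N + (t + 1)) / ((N + (t + 1))! : ℝ) =
        y ^ (N + t) / ((N + t)! : ℝ) * (y / (N + t + 1)) := by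
      rw [← add_assoc, Nat.factorial_succ, pow_succ]
      push_cast
      field_simp
    rw [h3, pow_succ, ← mul_assoc]
    apply mul_le_mul h1 h2 (div_nonneg hy0.le (by linarith)) (by positivity)

theorem two_point_dim (x y : ℝ) (hx : 0 < x) (hxy : x < y) (hy1 : y ≤ 1) :
    ((1 / 40 : ℝ≥0) : ℝ≥0∞) ≤ dimH {s | ∃ j : ℕ → ℕ, (∀ i, j i ≤ i) ∧
      HasSum (fun i => x ^ (j i) * y ^ (i - j i) / (i ! : ℝ)) s} := by
  classical
  have hy0 : 0 < y := lt_trans hx hxy
  set ρ := x / y with hρ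
  have hρ0 : 0 < ρ := div_pos hx hy0
  have hρ1 : ρ < 1 := (div_lt_one hy0).2 hxy
  set lam := -Real.log ρ with hlam
  have hlam0 : 0 < lam := by
    have := Real.log_neg hρ0 hρ1
    linarith
  set a := -Real.log y with ha
  have ha0 : 0 ≤ a := by
    have := Real.log_nonpos hy0.le hy1
    linarith
  have hρe : Real.exp (-lam) = ρ := by rw [hlam, neg_neg, Real.exp_log hρ0]
  have hρpow : ∀ n : ℕ, ρ ^ n = Real.exp (-(lam * n)) := by
    intro n
    rw [← hρe, ← Real.exp_nat_mul]; congr 1; ring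
  let u : ℕ → ℝ := fun i => y ^ i / (i ! : ℝ)
  have hu0 : ∀ i, 0 < u i := fun i => by positivity
  let ψ : ℕ → ℝ := fun i => (Real.log (i ! : ℝ) + a * i) / lam
  have hψ0 : ∀ i, 0 ≤ ψ i := fun i => by
    have : 0 ≤ Real.log (i ! : ℝ) := Real.log_natCast_nonneg _
    positivity
  have huψ : ∀ i, u i = Real.exp (-(lam * ψ i)) := by
    intro i
    have e1 : -(lam * ψ i) = i * Real.log y - Real.log (i ! : ℝ) := by
      simp only [ψ, ha]; field_simp; ring
    rw [e1, Real.exp_sub, Real.exp_log (by positivity), Real.exp_nat_mul, Real.exp_log hy0]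
  let e : ℕ → ℕ := fun i => ⌊ψ i⌋₊
  have he1 : ∀ i, (e i : ℝ) ≤ ψ i := fun i => Nat.floor_le (hψ0 i)
  have he2 : ∀ i, ψ i < e i + 1 := fun i => Nat.lt_floor_add_one _
  let μ : ℕ → ℝ := fun i => Real.exp (-(lam * (ψ i - e i)))
  have hμ0 : ∀ i, 0 ≤ μ i := fun i => (Real.exp_pos _).le
  have hμ1 : ∀ i, μ i ≤ 1 := fun i => by
    apply Real.exp_le_one_iff.2
    have := he1 i
    nlinarith
  have hμρ : ∀ i, ρ ≤ μ i := fun i => by
    rw [← hρe]
    apply Real.exp_le_exp.2
    have := he2 i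
    nlinarith
  have huμ : ∀ i, μ i * ρ ^ (e i) = u i := by
    intro i
    rw [hρpow, huψ, ← Real.exp_add]; congr 1; ring
  have hu_le : ∀ i, u i ≤ ρ ^ (e i) := fun i => by
    rw [← huμ]
    have := hμ1 i
    have : 0 < ρ ^ (e i) := by positivity
    nlinarith
  have hu_ge : ∀ i, ρ ^ (e i) * ρ ≤ u i := fun i => by
    rw [← huμ]
    have := hμρ i
    have : 0 < ρ ^ (e i) := by positivity
    nlinarith
  have hψdiff : ∀ i t : ℕ, ψ (i + t) - ψ i =
      (Real.log ((i + t)! : ℝ) - Real.log (i ! : ℝ) + a * t) / lam := by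
    intro i t
    simp only [ψ]; push_cast; ring
  have hψmono : Monotone ψ := by
    intro i j hij
    obtain ⟨t, rfl⟩ := Nat.exists_eq_add_of_le hij
    have h1 := hψdiff i t
    have h2 := logfac_lower i t
    have h3 : 0 ≤ Real.log ((i : ℝ) + 1) := Real.log_nonneg (by
      have : (0 : ℝ) ≤ i := by positivity
      linarith)
    have h4 : 0 ≤ (Real.log ((i + t)! : ℝ) - Real.log (i ! : ℝ) + a * t) / lam := by
      apply div_nonneg _ hlam0.le
      have : 0 ≤ (t : ℝ) * Real.log ((i : ℝ) + 1) := by positivity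
      have : 0 ≤ a * t := by positivity
      linarith
    linarith
  have hemono : Monotone e := fun i j hij => Nat.floor_mono (hψmono hij)
  -- the threshold
  obtain ⟨w0, hw0⟩ := exists_nat_ge (2 + 68 / lam + a + 256 / y + 3 * (2 + 1 / (1 - ρ)) / ρ ^ 2)
  have hρ1' : 0 < 1 - ρ := by linarith
  have hc1 : 0 ≤ 68 / lam := by positivity
  have hc2 : 0 ≤ 256 / y := by positivity
  have hc3 : 0 ≤ 3 * (2 + 1 / (1 - ρ)) / ρ ^ 2 := by positivity
  set k0 := w0 ^ 4 with hk0
  have hw : ∀ k, (w0 : ℝ) ≤ wd (k + k0) := fun k => by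
    exact_mod_cast le_wd w0 (k + k0) (by omega)
  have hw2 : ∀ k, 2 ≤ wd (k + k0) := fun k => by
    have : (2 : ℝ) ≤ wd (k + k0) := by linarith [hw k]
    exact_mod_cast this
  have hκ16 : ∀ k, 16 ≤ k + k0 := fun k => by
    have h1 := wd_pow_le (k + k0)
    have h2 := Nat.pow_le_pow_left (hw2 k) 4
    omega
  have hκup : ∀ k, ((k + k0 : ℕ) : ℝ) ≤ 16 * (wd (k + k0) : ℝ) ^ 4 := fun k => by
    have h1 := (lt_wd_succ_pow (k + k0)).le
    have h2 : (wd (k + k0) + 1) ^ 4 ≤ (2 * wd (k + k0)) ^ 4 :=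
      Nat.pow_le_pow_left (by have := hw2 k; omega) 4
    have h3 : k + k0 ≤ 16 * wd (k + k0) ^ 4 := by
      calc k + k0 ≤ (2 * wd (k + k0)) ^ 4 := le_trans h1 h2
        _ = 16 * wd (k + k0) ^ 4 := by ring
    exact_mod_cast h3
  have hκlo : ∀ k, (wd (k + k0) : ℝ) ^ 4 ≤ ((k + k0 : ℕ) : ℝ) := fun k => by
    exact_mod_cast wd_pow_le (k + k0)
  let N : ℕ → ℕ := fun k => 4 * (k + k0) + 4 * wd (k + k0)
  have hN1 : ∀ k, N k + 4 ≤ N (k + 1) := fun k => by
    have := wd_mono (show k + k0 ≤ k + 1 + k0 by omega)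
    simp only [N]; omega
  have hN2 : ∀ k, N (k + 1) ≤ N k + 8 := fun k => by
    have := wd_succ_le (k + k0)
    rw [show k + k0 + 1 = k + 1 + k0 by omega] at this
    simp only [N]; omega
  have hN3 : ∀ k, N (k + 1 + 1) ≤ 16 * (k + k0) := fun k => by
    have h1 := hN2 k
    have h2 := hN2 (k + 1)
    have h3 := wd_le (k + k0)
    have h4 := hκ16 k
    simp only [N] at *
    omega
  -- separated sets
  have hsep : ∀ k : ℕ, ∃ I ⊆ Finset.Ico (4 * (k + k0)) (N k),
      (Finset.Ico (4 * (k + k0)) (N k)).card ≤ 2 * I.card ∧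
      ∀ s ∈ I, ∀ t ∈ I, s ≠ t → ρ / (40 * ((k + k0 : ℕ) : ℝ)) ≤ |μ s - μ t| := by
    intro k
    apply exists_separated
    intro i hi j hj l hl hij hjl h1 h2
    have hκ0 : (0 : ℝ) < ((k + k0 : ℕ) : ℝ) := by
      have := hκ16 k
      exact_mod_cast (by omega : 0 < k + k0)
    set κ : ℝ := ((k + k0 : ℕ) : ℝ) with hκ
    have conv : ∀ s t : ℕ, |μ s - μ t| ≤ 2 * (ρ / (40 * κ)) →
        |ψ t - ψ s - ((e t : ℤ) - (e s : ℤ) : ℤ)| ≤ 1 / (20 * κ * lam) := by
      intro s t hst
      have g1 := exp_gap lam (lam * (ψ s - e s)) (lam * (ψ t - e t))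
        (by have := he2 s; nlinarith) (by have := he2 t; nlinarith)
      rw [hρe, ← mul_sub, abs_mul, abs_of_pos hlam0] at g1
      have g2 : ρ * (lam * |ψ s - e s - (ψ t - e t)|) ≤ ρ * (1 / (20 * κ)) := by
        refine le_trans g1 (le_trans hst (le_of_eq ?_))
        field_simp; ring
      have g3 := le_of_mul_le_mul_left g2 hρ0
      have g4 : |ψ t - ψ s - ((e t : ℤ) - (e s : ℤ) : ℤ)| = |ψ s - e s - (ψ t - e t)| := by
        rw [abs_sub_comm]; congr 1; push_cast; ring
      rw [g4, le_div_iff₀ (by positivity)]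
      rw [le_div_iff₀ (by positivity)] at g3
      nlinarith
    obtain ⟨p, rfl⟩ := Nat.exists_eq_add_of_le hij.le
    obtain ⟨q, rfl⟩ := Nat.exists_eq_add_of_le hjl.le
    have c1 := conv _ _ h1
    have c2 := conv _ _ h2
    rw [hψdiff] at c1 c2
    rw [Finset.mem_Ico] at hi hj hl
    have hwk := hw k
    have hlo := hκlo k
    set w : ℝ := (wd (k + k0) : ℝ) with hwdef
    have hw1 : 2 ≤ w := by linarith
    have hwl : 68 / lam ≤ w := by linarith
    rw [div_le_iff₀ hlam0] at hwl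
    refine three_point lam a hlam0 (4 * (k + k0)) (4 * wd (k + k0))
      (by have := hκ16 k; omega) (by have := wd_le (k + k0); omega)
      (1 / (20 * κ * lam)) (by positivity) ?_ ?_ i p q (by omega) (by omega) hi.1 hl.2 _ _ c1 c2
    · rw [Nat.cast_mul, ← hκ]
      have : 4 * (((4 : ℕ) : ℝ) * κ) * lam * (1 / (20 * κ * lam)) = 4 / 5 := by
        push_cast; field_simp; ring
      rw [this]; norm_num
    · rw [Nat.cast_mul, Nat.cast_mul, ← hκ, ← hwdef]
      have : (((4 : ℕ) : ℝ) * w) ^ 3 / (((4 : ℕ) : ℝ) * κ * lam) +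
          ((4 : ℕ) : ℝ) * w * (1 / (20 * κ * lam)) = (16 * w ^ 3 + w / 5) / (κ * lam) := by
        push_cast; field_simp; ring
      rw [this, div_lt_one (by positivity)]
      have t1 : w ^ 4 * lam ≤ κ * lam := mul_le_mul_of_nonneg_right hlo hlam0.le
      have t2 : 68 * w ^ 3 ≤ w ^ 4 * lam := by
        have : w ^ 4 * lam = w ^ 3 * (w * lam) := by ring
        rw [this]
        have : 0 ≤ w ^ 3 := by positivity
        nlinarith
      have t3 : w ≤ w ^ 3 := le_self_pow₀ (by linarith) (by norm_num)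
      nlinarith
  choose I hIsub hIcard hIsep using hsep
  have hImem : ∀ k, ∀ i ∈ I k, 4 * (k + k0) ≤ i ∧ i < N k := fun k i hi =>
    Finset.mem_Ico.1 (hIsub k hi)
  have hgap : ∀ k, (2 + 1 / (1 - ρ)) * ρ ^ (e (N (k + 1))) ≤
      ρ ^ (e (N k)) * (ρ / (40 * ((k + k0 : ℕ) : ℝ))) := by
    intro k
    have hκ0 : (16 : ℝ) ≤ ((k + k0 : ℕ) : ℝ) := by exact_mod_cast hκ16 k
    obtain ⟨t, ht⟩ := Nat.exists_eq_add_of_le (show N k ≤ N (k + 1) by have := hN1 k; omega)
    have g1 : u (N (k + 1)) ≤ u (N k) / ((N k : ℝ) + 1) ^ 2 := by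
      rw [ht]
      exact u_upper y hy0 hy1 (N k) t (by have := hN1 k; omega)
    have g2 := hu_ge (N (k + 1))
    have g3 := hu_le (N k)
    have g4 : 4 * ((k + k0 : ℕ) : ℝ) ≤ (N k : ℝ) + 1 := by
      have : 4 * (k + k0) ≤ N k + 1 := by simp only [N]; omega
      exact_mod_cast this
    have g5 : (wd (k + k0) : ℝ) ≤ ((k + k0 : ℕ) : ℝ) := by exact_mod_cast wd_le (k + k0)
    set κ : ℝ := ((k + k0 : ℕ) : ℝ) with hκ
    have g6 : 3 * (2 + 1 / (1 - ρ)) / ρ ^ 2 ≤ κ := by linarith [hw k]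
    rw [div_le_iff₀ (by positivity)] at g6
    have g7 : u (N k) / ((N k : ℝ) + 1) ^ 2 ≤ ρ ^ (e (N k)) / (4 * κ) ^ 2 :=
      div_le_div₀ (by positivity) g3 (by positivity)
        (pow_le_pow_left₀ (by positivity) g4 2)
    have g8 : ρ ^ (e (N (k + 1))) ≤ ρ ^ (e (N k)) / (4 * κ) ^ 2 / ρ := by
      rw [le_div_iff₀ hρ0]; linarith
    have hc : 0 ≤ 2 + 1 / (1 - ρ) := by positivity
    refine le_trans (mul_le_mul_of_nonneg_left g8 hc) ?_
    have g9 : (2 + 1 / (1 - ρ)) * (ρ ^ (e (N k)) / (4 * κ) ^ 2 / ρ) =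
        ρ ^ (e (N k)) * ((2 + 1 / (1 - ρ)) / (16 * κ ^ 2 * ρ)) := by
      field_simp; ring
    rw [g9]
    apply mul_le_mul_of_nonneg_left _ (by positivity)
    rw [div_le_div_iff₀ (by positivity) (by positivity)]
    have : 0 < κ := by linarith
    nlinarith
  have hP : ∀ k, u (N 1) ≤ ((∏ l ∈ Finset.range k, wd (l + k0) : ℕ) : ℝ) ^ 40 * u (N (k + 1)) := by
    intro k
    induction k with
    | zero => simp
    | succ k ih =>
      refine le_trans ih ?_
      rw [Finset.prod_range_succ, Nat.cast_mul, mul_pow, mul_assoc]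
      apply mul_le_mul_of_nonneg_left _ (by positivity)
      obtain ⟨t, ht⟩ := Nat.exists_eq_add_of_le
        (show N (k + 1) ≤ N (k + 1 + 1) by have := hN1 (k + 1); omega)
      have ht8 : t ≤ 8 := by have := hN2 (k + 1); omega
      have hwk := hw k
      have hup := hκup k
      set w : ℝ := (wd (k + k0) : ℝ) with hwdef
      have hw1 : 2 ≤ w := by linarith
      have g1 : ((N (k + 1) : ℝ)) + t ≤ 256 * w ^ 4 := by
        have h1 : N (k + 1) + t ≤ 16 * (k + k0) := by rw [← ht]; exact hN3 k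
        have h2 : ((N (k + 1) : ℝ)) + t ≤ 16 * ((k + k0 : ℕ) : ℝ) := by exact_mod_cast h1
        linarith
      have g2 := u_lower y hy0 (N (k + 1)) t _ g1
      rw [← ht] at g2
      have g3 : 1 / w ^ 5 ≤ y / (256 * w ^ 4) := by
        have : 256 / y ≤ w := by linarith
        rw [div_le_iff₀ hy0] at this
        rw [div_le_div_iff₀ (by positivity) (by positivity)]
        have h4 : y * w ^ 5 = w ^ 4 * (w * y) := by ring
        rw [h4]
        have : 0 ≤ w ^ 4 := by positivity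
        nlinarith
      have g4 : 1 / w ^ 5 ≤ 1 := by
        rw [div_le_one (by positivity)]
        exact one_le_pow₀ (by linarith)
      have g5 : (1 / w ^ 5) ^ 8 ≤ (y / (256 * w ^ 4)) ^ t :=
        le_trans (pow_le_pow_of_le_one (by positivity) g4 ht8)
          (pow_le_pow_left₀ (by positivity) g3 t)
      have g6 : u (N (k + 1)) * (1 / w ^ 5) ^ 8 ≤ u (N (k + 1 + 1)) :=
        le_trans (mul_le_mul_of_nonneg_left g5 (hu0 _).le) g2
      have g7 : u (N (k + 1)) = w ^ 40 * (u (N (k + 1)) * (1 / w ^ 5) ^ 8) := by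
        field_simp
      rw [g7]
      exact mul_le_mul_of_nonneg_left g6 (by positivity)
  have hmain := cantor_dim ρ hρ0 hρ1 μ hμ0 hμ1 e ?_ (fun k => wd (k + k0)) (fun k => e (N k)) I
    hw2 ?_ ?_ ?_ ?_ (1 / 40) ⟨(u (N 1))⁻¹ ^ (1 / 40 : ℝ), by have := hu0 (N 1); positivity⟩
    (by norm_num) ?_
  · refine le_trans hmain (dimH_mono ?_)
    rintro s ⟨j, hj, hs⟩
    refine ⟨j, hj, ?_⟩
    convert hs using 1
    ext i
    rw [pow_add, ← mul_assoc, huμ]
    simp only [u, hρ]
    obtain ⟨t, ht⟩ := Nat.exists_eq_add_of_le (hj i)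
    have : y ^ i = y ^ (j i) * y ^ (i - j i) := by
      rw [← pow_add]; congr 1; omega
    rw [this, div_pow]
    field_simp
  · refine Summable.of_nonneg_of_le (fun i => mul_nonneg (hμ0 i) (by positivity)) (fun i => ?_)
      (summable_geometric_of_lt_one hρ0.le hρ1)
    have h1 : ρ ^ (e i + i) ≤ ρ ^ i := pow_le_pow_of_le_one hρ0.le hρ1.le (by omega)
    have h2 := hμ1 i
    have h3 : 0 < ρ ^ (e i + i) := by positivity
    nlinarith
  · apply strictMono_nat_of_lt_succ
    intro k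
    have h1 := hgap k
    have hκ0 : (16 : ℝ) ≤ ((k + k0 : ℕ) : ℝ) := by exact_mod_cast hκ16 k
    have h2 : ρ / (40 * ((k + k0 : ℕ) : ℝ)) ≤ 1 := by
      rw [div_le_one (by positivity)]; linarith
    have h3 : 0 < ρ ^ (e (N (k + 1))) := by positivity
    have h4 : 0 < ρ ^ (e (N k)) := by positivity
    have h5 : 0 < 1 / (1 - ρ) := by positivity
    have h6 : ρ ^ (e (N (k + 1))) < ρ ^ (e (N k)) := by nlinarith
    exact (pow_lt_pow_iff_right_of_lt_one₀ hρ0 hρ1).1 h6
  · intro k i hi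
    obtain ⟨hi1, hi2⟩ := hImem k i hi
    refine ⟨hemono hi2.le, ?_⟩
    obtain ⟨t, ht⟩ := Nat.exists_eq_add_of_le (show i ≤ N (k + 1) by have := hN1 k; omega)
    have g1 := hψdiff i t
    rw [← ht] at g1
    have g2 := logfac_upper i t
    rw [← ht] at g2
    have hwk := hw k
    have hup := hκup k
    have hlo := hκlo k
    have ht12 : t ≤ 12 * wd (k + k0) := by
      have := hN2 k
      have := hw2 k
      simp only [N] at *
      omega
    have ht12' : (t : ℝ) ≤ 12 * wd (k + k0) := by exact_mod_cast ht12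
    have hi4 : 4 * ((k + k0 : ℕ) : ℝ) ≤ i := by exact_mod_cast hi1
    have hit : (i : ℝ) + t ≤ 16 * ((k + k0 : ℕ) : ℝ) := by
      have h1 : i + t ≤ 16 * (k + k0) := by
        have := hN3 k
        have := hN1 (k + 1)
        omega
      exact_mod_cast h1
    set w : ℝ := (wd (k + k0) : ℝ) with hwdef
    have hw1 : 2 ≤ w := by linarith
    have hwl : 68 / lam ≤ w := by linarith
    rw [div_le_iff₀ hlam0] at hwl
    have hκ0 : (16 : ℝ) ≤ ((k + k0 : ℕ) : ℝ) := by exact_mod_cast hκ16 k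
    have g3 : Real.log ((i : ℝ) + t) ≤ 16 * w := by
      have h1 : Real.log ((i : ℝ) + t) ≤ Real.log ((4 * w) ^ 4) := by
        apply Real.log_le_log
        · have : (0 : ℝ) ≤ t := by positivity
          linarith
        · nlinarith
      rw [Real.log_pow] at h1
      have h2 := Real.log_le_sub_one_of_pos (x := 4 * w) (by positivity)
      push_cast at h1
      linarith
    have haw : a ≤ w := by linarith
    have g4 : ψ (N (k + 1)) - ψ i ≤ 3 * w ^ 3 := by
      rw [g1, div_le_iff₀ hlam0]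
      have h0 : (0 : ℝ) ≤ t := by positivity
      have h1 : (t : ℝ) * Real.log ((i : ℝ) + t) ≤ t * (16 * w) :=
        mul_le_mul_of_nonneg_left g3 h0
      have h2 : a * t ≤ w * t := mul_le_mul_of_nonneg_right haw h0
      have h3 : (t : ℝ) * (17 * w) ≤ 12 * w * (17 * w) :=
        mul_le_mul_of_nonneg_right ht12' (by positivity)
      have h4 : 3 * w ^ 3 * lam = 3 * w ^ 2 * (w * lam) := by ring
      have h5 : 3 * w ^ 2 * 68 ≤ 3 * w ^ 2 * (w * lam) :=
        mul_le_mul_of_nonneg_left hwl (by positivity)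
      nlinarith
    have g5 : 3 * w ^ 3 + 1 ≤ 4 * w ^ 4 := by
      have h1 : 1 ≤ w ^ 3 := one_le_pow₀ (by linarith)
      have h2 : w ^ 4 = w ^ 3 * w := by ring
      nlinarith
    have g6 : (e (N (k + 1)) : ℝ) ≤ e i + i := by
      have := he1 (N (k + 1))
      have := he2 i
      linarith
    exact_mod_cast g6
  · intro k s hs t ht hst
    exact le_trans (hgap k) (mul_le_mul_of_nonneg_left (hIsep k s hs t ht hst) (by positivity))
  · intro k s hs
    have h1 : I k \ (Finset.Ico (k - wd (k + k0)) k).image s ⊆ I k \ (Finset.range k).image s := by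
      intro i hi
      rw [Finset.mem_sdiff] at hi ⊢
      refine ⟨hi.1, fun hmem => hi.2 ?_⟩
      obtain ⟨l, hl, rfl⟩ := Finset.mem_image.1 hmem
      rw [Finset.mem_range] at hl
      apply Finset.mem_image_of_mem
      have e1 := (hImem k _ hi.1).1
      have e2 := (hImem l _ (hs l hl)).2
      have e3 := wd_mono (show l + k0 ≤ k + k0 by omega)
      simp only [N] at e2
      rw [Finset.mem_Ico]
      omega
    refine le_trans ?_ (Finset.card_le_card h1)
    refine le_trans ?_ (Finset.le_card_sdiff _ _)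
    have h2 : ((Finset.Ico (k - wd (k + k0)) k).image s).card ≤ wd (k + k0) := by
      refine le_trans Finset.card_image_le ?_
      rw [Nat.card_Ico]; omega
    have h3 := hIcard k
    rw [Nat.card_Ico] at h3
    simp only [N] at h3
    omega
  · intro k
    have h1 := hP k
    have h2 := hu_le (N (k + 1))
    have hPpos : (0 : ℝ) < ((∏ l ∈ Finset.range k, wd (l + k0) : ℕ) : ℝ) := by
      have : 0 < ∏ l ∈ Finset.range k, wd (l + k0) :=
        Finset.prod_pos (fun l _ => by have := hw2 l; omega)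
      exact_mod_cast this
    set P : ℝ := ((∏ l ∈ Finset.range k, wd (l + k0) : ℕ) : ℝ) with hPdef
    have hu1 := hu0 (N 1)
    have h3 : (1 / P) ^ 40 ≤ (u (N 1))⁻¹ * ρ ^ (e (N (k + 1))) := by
      rw [one_div_pow, div_le_iff₀ (by positivity), mul_assoc, ← div_eq_inv_mul,
        le_div_iff₀ hu1, one_mul]
      have : P ^ 40 * u (N (k + 1)) ≤ P ^ 40 * ρ ^ (e (N (k + 1))) :=
        mul_le_mul_of_nonneg_left h2 (by positivity)
      linarith
    have h4 := Real.rpow_le_rpow (by positivity) h3 (show (0 : ℝ) ≤ 1 / 40 by norm_num)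
    rw [Real.mul_rpow (by positivity) (by positivity)] at h4
    have h5 : ((1 / P) ^ 40) ^ (1 / 40 : ℝ) = 1 / P := by
      rw [← Real.rpow_natCast, ← Real.rpow_mul (by positivity)]
      norm_num
    rw [h5] at h4
    have h6 : (((1 / 40 : ℝ≥0)) : ℝ) = 1 / 40 := by simp
    rw [h6]
    exact h4

end Pool.Agent.MP_098a03_an

end MrgPart2

-- marker of a merged file
example : 731051 + 599063 = 731051 + 599063 := rfl
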